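import Pool.Agent.H4.AbCl

set_option autoImplicit false

namespace Pool.Agent.Results.MP_fa9958_co.Unc

open Finset Filter Topology Pool.Agent.H4.AbCl

variable {x : ℕ → Bool} {α : ℝ}

lemma not_count {a b : ℝ} (h : a < b) : ¬ (Set.Ico a b).Countable := fun hc => by
  have := hc.measure_zero MeasureTheory.volume
  simp at this
  linarith

lemma D_eq (x : ℕ → Bool) (α : ℝ) (n : ℕ) : D x α n = wt x 0 n - α * n := by simp [D, s]

lemma unbdd (hu : UR x) (hf : UFreq x α) (hD : ¬ ∃ C, ∀ n, |D x α n| ≤ C) :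
    ¬ {M | IsMinSub M ∧ M ⊆ AC x}.Countable := by
  let r : ℝ → ℕ → ℝ := fun l i => α * i + l * D x α i
  have hr : ∀ l i n, r l (i + n) - r l i = α * n + l * (wt x i n - α * n) := by
    intro l i n
    rw [← D_sub]; simp only [r]; push_cast; ring
  have hadm : ∀ l ∈ Set.Ico (0 : ℝ) 1, Adm x (fun i => ⌊r l i⌋) := by
    intro l hl
    refine adm_floor _ fun i n => ?_
    obtain ⟨j, hj⟩ := freq_lo hf n
    obtain ⟨k, hk⟩ := freq_hi hf n
    rw [hr]
    constructor
    · rcases le_total (wt x j n : ℝ) (wt x i n) with e | e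
      · exact ⟨j, by nlinarith [hl.1, hl.2]⟩
      · exact ⟨i, by nlinarith [hl.1, hl.2]⟩
    · rcases le_total (wt x k n : ℝ) (wt x i n) with e | e
      · exact ⟨i, by nlinarith [hl.1, hl.2]⟩
      · exact ⟨k, by nlinarith [hl.1, hl.2]⟩
  have hw : ∀ l ∈ Set.Ico (0 : ℝ) 1, ∀ i n, |(wt (word fun i => ⌊r l i⌋) i n : ℝ) - α * n -
      l * (wt x i n - α * n)| < 1 := by
    intro l hl i n
    have h1 : (wt (word fun i => ⌊r l i⌋) i n : ℝ) = ⌊r l (i + n)⌋ - ⌊r l i⌋ := by
      exact_mod_cast (hadm l hl).wt_word i n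
    have h2 := hr l i n
    rw [abs_lt]
    constructor <;> linarith [Int.floor_le (r l i), Int.lt_floor_add_one (r l i),
      Int.floor_le (r l (i + n)), Int.lt_floor_add_one (r l (i + n))]
  refine unc _ (not_count one_pos) (fun l => word fun i => ⌊r l i⌋)
    (fun l hl => (hadm l hl).mem) ?_
  have key : ∀ l ∈ Set.Ico (0 : ℝ) 1, ∀ l' ∈ Set.Ico (0 : ℝ) 1, ∀ z,
      z ∈ Om (word fun i => ⌊r l i⌋) → z ∈ Om (word fun i => ⌊r l' i⌋) → ¬ l < l' := by
    intro l hl l' hl' z hz hz' hlt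
    refine hD ⟨2 / (l' - l), fun n => ?_⟩
    obtain ⟨m, ⟨j, rfl⟩, hm⟩ := Set.exists_max_image (Set.range (fun j => wt x j n))
      (fun m => |(m : ℝ) - α * n|)
      ((Set.finite_Iic n).subset (by rintro _ ⟨j, rfl⟩; exact wt_le x j n)) (Set.range_nonempty _)
    obtain ⟨N, hN⟩ := hu j n
    obtain ⟨k, hk⟩ := Om.win hz' (N + n)
    obtain ⟨j', h1, h2, h3⟩ := hN k
    obtain ⟨i, rfl⟩ : ∃ i, j' = k + i := ⟨j' - k, by omega⟩
    obtain ⟨k', hk'⟩ := Om.win hz (i + n)
    have e1 := hw l' hl' (k + i) n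
    rw [← hk i n (by omega), wt_congr h3] at e1
    have e2 := hw l hl (k' + i) n
    rw [← hk' i n le_rfl] at e2
    have e3 := hm _ ⟨k' + i, rfl⟩
    have e4 := hm _ ⟨0, rfl⟩
    simp only at e3 e4
    have e5 := abs_sub_abs_le_abs_sub (l' * (wt x j n - α * n)) ((wt z i n : ℝ) - α * n)
    have e6 := abs_sub_abs_le_abs_sub ((wt z i n : ℝ) - α * n) (l * (wt x (k' + i) n - α * n))
    rw [abs_sub_comm (l' * _), abs_mul, abs_of_nonneg hl'.1] at e5
    rw [abs_mul, abs_of_nonneg hl.1] at e6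
    rw [D_eq, le_div_iff₀ (by linarith)]
    nlinarith [hl.1, mul_le_mul_of_nonneg_left e3 hl.1,
      mul_le_mul_of_nonneg_left e4 (sub_pos.2 hlt).le]
  intro l hl l' hl' z hz hz'
  exact le_antisymm (not_lt.1 (key l' hl' l hl z hz' hz)) (not_lt.1 (key l hl l' hl' z hz hz'))

lemma bdd (hu : UR x) (hf : UFreq x α) (hi : Irrational α) (C : ℝ) (hD : ∀ n, |D x α n| ≤ C)
    (hW : ∃ i j, 1 < D x α j - D x α i) : ¬ {M | IsMinSub M ∧ M ⊆ AC x}.Countable := by
  have hlo : BddBelow (Set.range (D x α)) := ⟨-C, by rintro _ ⟨n, rfl⟩; exact (abs_le.1 (hD n)).1⟩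
  have hhi : BddAbove (Set.range (D x α)) := ⟨C, by rintro _ ⟨n, rfl⟩; exact (abs_le.1 (hD n)).2⟩
  set A := ⨅ n, D x α n with hA
  have hA1 : ∀ n, A ≤ D x α n := ciInf_le hlo
  have hA2 : ∀ ε > 0, ∃ n, D x α n < A + ε := fun ε hε =>
    exists_lt_of_ciInf_lt (by linarith)
  have hrec : ∀ ε > 0, ∀ k0, ∃ N, ∀ k, ∃ d ≤ N, |D x α (k + d) - D x α k0| < ε := by
    intro ε hε k0
    obtain ⟨i0, h0⟩ := hA2 ε hε
    obtain ⟨i1, h1⟩ : ∃ n, (⨆ n, D x α n) - ε < D x α n := exists_lt_of_lt_ciSup (by linarith)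
    obtain ⟨N, hN⟩ := hu 0 (i0 + i1 + k0)
    refine ⟨N + k0, fun k => ?_⟩
    obtain ⟨j, h2, h3, h4⟩ := hN k
    have h5 : ∀ t ≤ i0 + i1 + k0, D x α (j + t) - D x α j = D x α t := fun t ht => by
      rw [D_sub, D_eq, wt_congr (fun u hu => h4 u (by omega))]
    refine ⟨j - k + k0, by omega, ?_⟩
    rw [show k + (j - k + k0) = j + k0 by omega, abs_lt]
    have := h5 i0 (by omega)
    have := h5 i1 (by omega)
    have := h5 k0 (by omega)
    have := hA1 (j + i0)
    have := le_ciSup hhi (j + i1)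
    constructor <;> linarith
  let S : ℝ → ℕ → ℤ := fun t i => min (s x i) ⌊α * i + t⌋
  have hadm : ∀ t, Adm x (S t) := fun t => (adm_s x).min (adm_floor _ fun i n => by
    have e : α * (i + n : ℕ) + t - (α * i + t) = α * n := by push_cast; ring
    rw [e]; exact ⟨freq_lo hf n, freq_hi hf n⟩)
  let E : ℝ → ℕ → ℝ := fun t i => S t i - α * i
  have hE1 : ∀ t i, E t i ≤ D x α i := fun t i => by
    have : (S t i : ℝ) ≤ s x i := by exact_mod_cast min_le_left _ _
    simp only [E, D]; linarith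
  have hE2 : ∀ t i, E t i ≤ t := fun t i => by
    have : (S t i : ℝ) ≤ ⌊α * i + t⌋ := by exact_mod_cast min_le_right _ _
    simp only [E]; linarith [Int.floor_le (α * i + t)]
  have hE3 : ∀ t i, A + 1 ≤ t → A ≤ E t i := fun t i ht => by
    have := hA1 i
    simp only [E, S, D] at this ⊢
    rcases min_choice (s x i) ⌊α * i + t⌋ with h | h <;> rw [h]
    · exact this
    · linarith [Int.lt_floor_add_one (α * i + t)]
  have hE4 : ∀ t i, D x α i ≤ t → E t i = D x α i := fun t i ht => by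
    simp only [E, S, D] at ht ⊢
    rw [min_eq_left (Int.le_floor.2 (by linarith))]
  have hwin : ∀ t z, z ∈ Om (word (S t)) → ∀ m, ∃ k, ∀ a ≤ m, D z α a = E t (k + a) - E t k := by
    intro t z hz m
    obtain ⟨k, hk⟩ := Om.win hz m
    refine ⟨k, fun a ha => ?_⟩
    have h1 : (wt (word (S t)) k a : ℝ) = S t (k + a) - S t k := by
      exact_mod_cast (hadm t).wt_word k a
    rw [D_eq, hk 0 a (by omega), add_zero, h1]
    simp only [E]; push_cast; ring
  refine unc {t | A + 1 ≤ t ∧ ∀ ε > 0, ∃ k, t - ε < D x α k ∧ D x α k < t} ?_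
    (fun t => word (S t)) (fun t _ => (hadm t).mem) ?_
  · intro hT
    obtain ⟨i0, j0, h0⟩ := hW
    have hη : 0 < D x α j0 - A - 1 := by linarith [hA1 i0]
    set V := {v | ∃ k, v = D x α k ∧ |D x α k - D x α j0| < D x α j0 - A - 1} with hV
    have hsub : closure V ⊆ Set.Icc (A + 1) C := by
      refine closure_minimal ?_ isClosed_Icc
      rintro _ ⟨k, rfl, hk⟩
      exact ⟨by linarith [(abs_lt.1 hk).1], (abs_le.1 (hD k)).2⟩
    have hcomp : IsCompact (closure V) := isCompact_Icc.of_isClosed_subset isClosed_closure hsub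
    have hcount : (closure V).Countable := by
      refine (hT.union (countable_setOfPred_isolated_left_within (s := closure V))).mono ?_
      intro t ht
      by_cases h : ∀ ε > 0, ∃ k, t - ε < D x α k ∧ D x α k < t
      · exact Or.inl ⟨(hsub ht).1, h⟩
      · right
        push Not at h
        obtain ⟨ε, hε, h⟩ := h
        refine ⟨ht, ?_⟩
        rw [← notMem_closure_iff_nhdsWithin_eq_bot, mem_closure_iff]
        push Not
        refine ⟨Set.Ioi (t - ε), isOpen_Ioi, by simpa using hε, ?_⟩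
        rw [Set.eq_empty_iff_forall_notMem]
        rintro u ⟨h1, h2, h3⟩
        obtain ⟨_, h4, k, rfl, -⟩ := mem_closure_iff.1 h2 (Set.Ioo (t - ε) t) isOpen_Ioo ⟨h1, h3⟩
        exact absurd h4.2 (not_lt.2 (h k h4.1))
    obtain ⟨N, hN⟩ := hrec _ hη j0
    have : Fact ((0 : ℝ) < 1) := ⟨one_pos⟩
    set U : Set (AddCircle (1 : ℝ)) :=
      ⋃ d ∈ Set.Iic N, (fun e : ℝ => ((α * (d : ℕ) + e : ℝ) : AddCircle (1 : ℝ))) '' closure V
    have hUc : IsClosed U := (Set.finite_Iic N).isClosed_biUnion fun d _ =>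
      (hcomp.image ((AddCircle.continuous_mk' 1).comp (by fun_prop))).isClosed
    have hUn : U.Countable := (Set.finite_Iic N).countable.biUnion fun d _ => hcount.image _
    have hd : DenseRange (· • ((-α : ℝ) : AddCircle (1 : ℝ)) : ℕ → AddCircle (1 : ℝ)) :=
      denseRange_zsmul_iff_nsmul.1 (AddCircle.denseRange_zsmul_coe_iff.2 (by simpa using hi))
    have hU : U = Set.univ := by
      rw [← hUc.closure_eq]
      refine (Dense.mono ?_ hd).closure_eq
      rintro _ ⟨k, rfl⟩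
      obtain ⟨d, hd1, hd2⟩ := hN k
      refine Set.mem_biUnion hd1 ⟨_, subset_closure ⟨k + d, rfl, hd2⟩, ?_⟩
      have e : α * d + D x α (k + d) = k • (-α) + (s x (k + d)) • (1 : ℝ) := by
        simp only [D]; push_cast; simp; ring
      simp only [e]
      rw [AddCircle.coe_add, AddCircle.coe_nsmul, AddCircle.coe_zsmul, AddCircle.coe_period]
      simp
    refine not_count (show (0 : ℝ) < 0 + 1 by norm_num)
      (Set.MapsTo.countable_of_injOn (f := fun e : ℝ => (e : AddCircle (1 : ℝ))) (t := U)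
        (fun _ _ => hU ▸ Set.mem_univ _) (fun a ha b hb e => ?_) hUn)
    exact (AddCircle.coe_eq_coe_iff_of_mem_Ico ha hb).1 e
  · have key : ∀ t t', A + 1 ≤ t → (∀ ε > 0, ∃ k, t' - ε < D x α k ∧ D x α k < t') → ∀ z,
        z ∈ Om (word (S t)) → z ∈ Om (word (S t')) → ¬ t < t' := by
      intro t t' ht ht' z hz hz' hlt
      obtain ⟨k0, h1, h2⟩ := ht' ((t' - t) / 4) (by linarith)
      obtain ⟨N, hN⟩ := hrec (min ((t' - t) / 4) (t' - D x α k0)) (lt_min (by linarith) (by linarith)) k0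
      obtain ⟨i0, h3⟩ := hA2 ((t' - t) / 4) (by linarith)
      obtain ⟨N', hN'⟩ := hrec ((t' - t) / 4) (by linarith) i0
      obtain ⟨k, hk⟩ := hwin t' z hz' (N + N')
      obtain ⟨b, hb, hb'⟩ := hN k
      obtain ⟨a, ha, ha'⟩ := hN' k
      obtain ⟨k', hk'⟩ := hwin t z hz (N + N')
      rw [lt_min_iff, abs_lt, abs_lt] at hb'
      rw [abs_lt] at ha'
      have e1 := hk a (by omega)
      have e2 := hk b (by omega)
      have e3 := hk' a (by omega)
      have e4 := hk' b (by omega)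
      have e5 := hE4 t' (k + b) (by linarith)
      have e6 := hE1 t' (k + a)
      have e7 := hE2 t (k' + b)
      have e8 := hE3 t (k' + a) ht
      linarith
    intro t ht t' ht' z hz hz'
    exact le_antisymm (not_lt.1 (key t' t ht'.1 ht.2 z hz' hz)) (not_lt.1 (key t t' ht.1 ht'.2 z hz hz'))

/-- The abelian closure of a uniformly recurrent, aperiodic, non-Sturmian binary word with
irrational uniform letter frequency contains uncountably many minimal subshifts. -/
theorem result : ∀ (x : ℕ → Bool) (α : ℝ), UR x → Aper x → ¬ Sturm x → UFreq x α → Irrational α →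
    ¬ {M | IsMinSub M ∧ M ⊆ AC x}.Countable := by
  intro x α hu ha hs hf hi
  by_cases hD : ∃ C, ∀ n, |D x α n| ≤ C
  · obtain ⟨C, hC⟩ := hD
    refine bdd hu hf hi C hC ?_
    by_contra hc
    push Not at hc
    refine hs ⟨ha, fun n => le_antisymm (bal (α := α) (fun i j => ?_) n) (mh ha n)⟩
    refine lt_of_le_of_ne (hc i j) fun e => ?_
    have hij : ((j : ℤ) - i : ℤ) ≠ 0 := by
      intro h
      obtain rfl : j = i := by omega
      simp at e
    refine (hi.mul_intCast hij).ne_int (s x j - s x i - 1) ?_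
    simp only [D] at e
    push_cast
    linarith
  · exact unbdd hu hf hD

end Pool.Agent.Results.MP_fa9958_co.Unc
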